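import Pool.Agent.LCE.Par

/-!
Almost all integers `n` have a reversed length `k ≥ n ^ a`, for every `a < 1 / 4`.
-/

set_option autoImplicit false

namespace Pool.Agent.Results.MP_ff0ae1_nt.AlmostAll

/-- Let `r ≥ 1` and `0 < a < b`, `a < 1 / (4 r)`. All but `O (x (log log x / log x) ^ (r / 2))` integers `n ≤ x` have a
length `k < n` with `x ^ a ≤ k ≤ x ^ b` and `lcm (n + 1, ..., n + k) < lcm (n - k + 1, ..., n)`. -/
theorem result : ∀ r : ℕ, 1 ≤ r → ∀ a b : ℝ, 0 < a → a < b → 4 * r * a < 1 → ∃ C x₀ : ℝ, ∀ x : ℝ, x₀ ≤ x →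
    (({n : ℕ | (n : ℝ) ≤ x ∧ ¬ ∃ k : ℕ, x ^ a ≤ k ∧ (k : ℝ) ≤ x ^ b ∧ k < n ∧
        (Finset.Icc (n + 1) (n + k)).lcm id < (Finset.Icc (n - k + 1) n).lcm id}.ncard : ℕ) : ℝ) ≤
      C * x * (Real.log (Real.log x) / Real.log x) ^ ((r : ℝ) / 2) := by
  intro r hr a b ha hab har
  obtain ⟨C, x₀, h⟩ := LCE.final r hr a b ha hab har
  refine ⟨C, x₀, fun x hx => ?_⟩
  have e : {n : ℕ | (n : ℝ) ≤ x ∧ ¬ ∃ k : ℕ, x ^ a ≤ k ∧ (k : ℝ) ≤ x ^ b ∧ k < n ∧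
      (Finset.Icc (n + 1) (n + k)).lcm id < (Finset.Icc (n - k + 1) n).lcm id} = LCE.NE x a b := by
    ext n
    simp only [LCE.NE, LCD.In, Set.mem_setOf_eq]
    push Not
    rfl
  rw [e]
  exact h x hx

end Pool.Agent.Results.MP_ff0ae1_nt.AlmostAll
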