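import Pool.Agent.LCC.Log

/-!
Many integers `n` for which the lcm of the block above `n` exceeds the lcm of the block of the same length
ending at `n`, for all lengths in a long initial range.
-/

set_option autoImplicit false

namespace Pool.Agent.Results.MP_ff0ae1_nt.InitialRange

/-- There are `c, C > 0` such that for all large `x` and all `3 ≤ K ≤ exp (c √(log x / log log x))` at least
`x exp (- C log K log log K)` integers `K < n ≤ x` satisfy
`lcm (n - k + 1, ..., n) < lcm (n + 1, ..., n + k)` for every `1 ≤ k ≤ K`. -/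
theorem result : ∃ c C x₀ : ℝ, 0 < c ∧ 0 < C ∧ ∀ x : ℝ, x₀ ≤ x → ∀ K : ℕ, 3 ≤ K →
    (K : ℝ) ≤ Real.exp (c * √(Real.log x / Real.log (Real.log x))) →
      x * Real.exp (-(C * (Real.log K * Real.log (Real.log K)))) ≤
        (({n : ℕ | K < n ∧ (n : ℝ) ≤ x ∧ ∀ k : ℕ, 1 ≤ k → k ≤ K →
          (Finset.Icc (n - k + 1) n).lcm id < (Finset.Icc (n + 1) (n + k)).lcm id}.ncard : ℕ) : ℝ) :=
  LCC.lower_bound

end Pool.Agent.Results.MP_ff0ae1_nt.InitialRange
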