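import Pool.Agent.LCG.Par

/-!
Many integers `n ≤ x` have a reversed length `k ≥ x ^ a`, for every `a < 4 / 7`.
-/

set_option autoImplicit false

namespace Pool.Agent.Results.MP_ff0ae1_nt.LongReversal

/-- Let `1 / 2 ≤ a < 4 / 7` and `ε > 0`. For all large `x` at least `x ^ (4 - 6 a - ε)` integers `n ≤ x` have a length
`x ^ a ≤ k < n` with `lcm (n + 1, ..., n + k) < lcm (n - k + 1, ..., n)`. -/
theorem result : ∀ a ε : ℝ, 1 / 2 ≤ a → a < 4 / 7 → 0 < ε → ∃ x₀ : ℝ, ∀ x : ℝ, x₀ ≤ x → x ^ (4 - 6 * a - ε) ≤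
    (({n : ℕ | (n : ℝ) ≤ x ∧ ∃ k : ℕ, x ^ a ≤ k ∧ k < n ∧
        (Finset.Icc (n + 1) (n + k)).lcm id < (Finset.Icc (n - k + 1) n).lcm id}.ncard : ℕ) : ℝ) :=
  fun a ε ha ha' hε => LCG.final a ε ha ha' hε

end Pool.Agent.Results.MP_ff0ae1_nt.LongReversal
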