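import Pool.Agent.LCF.Cng

/-!
Few integers `n ≤ x` have no reversed length between `M` and `K`.
-/

set_option autoImplicit false

namespace Pool.Agent.Results.MP_ff0ae1_nt.ReversedWindow

/-- There are `c > 0` and `C` such that for all `x ≥ 1` and `1 ≤ M ≤ K` with `log K * log (K / M) ≤ c * log x` all but at
most `C x (M / K) ^ c` integers `n ≤ x` have a length `k < n` with `M ≤ k ≤ K` and
`lcm (n + 1, ..., n + k) < lcm (n - k + 1, ..., n)`. -/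
theorem result : ∃ c C : ℝ, 0 < c ∧ ∀ x M K : ℝ, 1 ≤ x → 1 ≤ M → M ≤ K →
    Real.log K * Real.log (K / M) ≤ c * Real.log x →
      (({n : ℕ | (n : ℝ) ≤ x ∧ ¬ ∃ k : ℕ, M ≤ k ∧ (k : ℝ) ≤ K ∧ k < n ∧
          (Finset.Icc (n + 1) (n + k)).lcm id < (Finset.Icc (n - k + 1) n).lcm id}.ncard : ℕ) : ℝ) ≤
        C * x * (M / K) ^ c := by
  obtain ⟨c, C, hc, h⟩ := LCF.final
  refine ⟨c, C, hc, fun x M K hx hM hMK hcond => ?_⟩
  have e : {n : ℕ | (n : ℝ) ≤ x ∧ ¬ ∃ k : ℕ, M ≤ k ∧ (k : ℝ) ≤ K ∧ k < n ∧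
      (Finset.Icc (n + 1) (n + k)).lcm id < (Finset.Icc (n - k + 1) n).lcm id} = LCF.NG x M K := by
    ext n
    simp only [LCF.NG, LCD.In, Set.mem_setOf_eq]
    push Not
    rfl
  rw [e]
  exact h x M K hx hM hMK hcond

end Pool.Agent.Results.MP_ff0ae1_nt.ReversedWindow
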